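import Pool.Agent.Chordal.Final

namespace Pool.Agent.Results.MP_1bbf1d_co.ExactSize

/-- A graph is chordal if it has no induced cycle of length at least `4`. -/
def IsChordal {V : Type} (H : SimpleGraph V) : Prop :=
  ∀ n ≥ 4, IsEmpty (SimpleGraph.cycleGraph n ↪g H)

/-- The number `t_k(n)` of edges of the Turan graph, the complete `k`-partite graph on `n` vertices
whose part sizes differ by at most one. -/
def turanEdges (k n : ℕ) : ℕ := (SimpleGraph.turanGraph n k).edgeFinset.card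

/-- Every graph on `n` vertices with exactly `m` edges has a chordal subgraph with at least `s`
edges. The function `f(n,m)` is the largest such integer `s`. -/
def Guaranteed (n m : ℕ) (s : ℤ) : Prop :=
  ∀ G : SimpleGraph (Fin n), G.edgeSet.ncard = m →
    ∃ H : G.Subgraph, IsChordal H.coe ∧ s ≤ (H.edgeSet.ncard : ℤ)

/-- The set of the numbers `k n - t + r` over all integers `t, r ≥ 0` with `t ≤ n` and
`t_{k-1}(n-t) + t (n-t) + t_2(r) ≥ m`; its minimum is `g_k(n,m)`. -/
def gSet (k n m : ℕ) : Set ℤ :=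
  {x | ∃ t r : ℕ, t ≤ n ∧ m ≤ turanEdges (k - 1) (n - t) + t * (n - t) + turanEdges 2 r ∧
    x = k * n - t + r}

/-- The exact value `f(n,m) = g_k(n,m) - binomial (k+1) 2` for all `k ≥ 3` and
`t_k(n) + 1 ≤ m ≤ t_{k+1}(n)`. -/
theorem result : ∀ k n m : ℕ, 3 ≤ k → 1 ≤ n → turanEdges k n + 1 ≤ m →
    m ≤ turanEdges (k + 1) n →
      ∃ g : ℤ, IsLeast (gSet k n m) g ∧
        IsGreatest {s : ℤ | Guaranteed n m s} (g - ((k + 1).choose 2 : ℤ)) := by
  intro k n m hk _ hm hm2
  refine ⟨(Chordal.gk k n m : ℤ), ?_, Chordal.result k n m hk hm hm2⟩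
  have hkey : gSet k n m = (fun x : ℕ => (x : ℤ)) '' Chordal.gset k n m := by
    ext x
    constructor
    · rintro ⟨t, r, ht, h, rfl⟩
      refine ⟨k * n - t + r, ⟨t, r, ht, h, rfl⟩, ?_⟩
      have : t ≤ k * n := ht.trans (Nat.le_mul_of_pos_left n (by omega))
      simp only
      push_cast [Nat.cast_sub this]
      ring
    · rintro ⟨y, ⟨t, r, ht, h, rfl⟩, rfl⟩
      refine ⟨t, r, ht, h, ?_⟩
      have : t ≤ k * n := ht.trans (Nat.le_mul_of_pos_left n (by omega))
      simp only
      push_cast [Nat.cast_sub this]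
      ring
  have hne : (Chordal.gset k n m).Nonempty := by
    obtain ⟨t, ht, h⟩ := Chordal.exists_tn_succ k n (by omega)
    exact ⟨_, t, t, ht, hm2.trans h, rfl⟩
  rw [hkey]
  constructor
  · exact ⟨_, Nat.sInf_mem hne, rfl⟩
  · rintro _ ⟨y, hy, rfl⟩
    exact Int.ofNat_le.2 (Nat.sInf_le hy)

end Pool.Agent.Results.MP_1bbf1d_co.ExactSize
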